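import Pool.Agent.V2450.Colmez.Main

/-!
# Sharpness, and the affine groups
-/

set_option autoImplicit false

open scoped Classical

namespace Pool.Agent.V2450.Colmez

universe u

noncomputable section

section sharp

variable {G : Type u} [Group G] [Fintype G] {c : G}

/-- The function is the sum of a function on the abelianization and a function which depends only on
the conjugacy class of the cyclic subgroup generated by the element. -/
def Split (a : G → ℚ) : Prop := ∃ f1 f2 : G → ℚ, a = f1 + f2 ∧ (∀ x y, Cs x y → f1 x = f1 y) ∧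
  ∀ x y, Dv x y → f2 x = f2 y

/-- The space of the functions which split. -/
def splitSpace (G : Type u) [Group G] [Fintype G] : Submodule ℚ (G → ℚ) where
  carrier := {a | Split a}
  zero_mem' := ⟨0, 0, by simp, fun _ _ _ => rfl, fun _ _ _ => rfl⟩
  add_mem' := by
    rintro a b ⟨f1, f2, h, h1, h2⟩ ⟨f1', f2', h', h1', h2'⟩
    refine ⟨f1 + f1', f2 + f2', ?_, ?_, ?_⟩
    · rw [h, h']
      abel
    · intro x y hxy
      rw [Pi.add_apply, Pi.add_apply, h1 x y hxy, h1' x y hxy]
    · intro x y hxy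
      rw [Pi.add_apply, Pi.add_apply, h2 x y hxy, h2' x y hxy]
  smul_mem' := by
    rintro r a ⟨f1, f2, h, h1, h2⟩
    refine ⟨r • f1, r • f2, ?_, ?_, ?_⟩
    · rw [h, smul_add]
    · intro x y hxy
      rw [Pi.smul_apply, Pi.smul_apply, h1 x y hxy]
    · intro x y hxy
      rw [Pi.smul_apply, Pi.smul_apply, h2 x y hxy]

omit [Fintype G] in
lemma mem_zp_c (hc2 : c * c = 1) (hcc : ∀ g : G, c * g = g * c) {x y : G}
    (h : Subgroup.zpowers x = Subgroup.zpowers y) : c * y ∈ Subgroup.zpowers (c * x) := by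
  obtain ⟨k, hk⟩ := Subgroup.mem_zpowers_iff.1 (h ▸ Subgroup.mem_zpowers y)
  obtain ⟨l, hl⟩ := Subgroup.mem_zpowers_iff.1 (h ▸ Subgroup.mem_zpowers x)
  have h1 : x ^ (k * l - 1) = 1 := by
    rw [zpow_sub, zpow_mul, hk, hl, zpow_one, mul_inv_cancel]
  obtain ⟨m, hm⟩ : ∃ m : ℤ, x ^ (2 * m + 1) = y := by
    rcases Int.even_or_odd k with he | ho
    · obtain ⟨r, hr⟩ := he
      refine ⟨r + r * l - 1, ?_⟩
      rw [show 2 * (r + r * l - 1) + 1 = k + (k * l - 1) by rw [hr]; ring, zpow_add, h1, hk,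
        mul_one]
    · obtain ⟨r, hr⟩ := ho
      exact ⟨r, by rw [← hr, hk]⟩
  have hcz : c ^ (2 : ℤ) = 1 := by
    rw [zpow_two, hc2]
  refine Subgroup.mem_zpowers_iff.2 ⟨2 * m + 1, ?_⟩
  have hcom : Commute c x := hcc x
  rw [hcom.mul_zpow, hm, zpow_add, zpow_mul, hcz, one_zpow, one_mul, zpow_one]

omit [Fintype G] in
lemma Dv.mul_c (hc2 : c * c = 1) (hcc : ∀ g : G, c * g = g * c) {x y : G} (h : Dv x y) :
    Dv (c * x) (c * y) := by
  obtain ⟨w, hw⟩ := h
  refine ⟨w, ?_⟩
  have e : w * (c * x) * w⁻¹ = c * (w * x * w⁻¹) := by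
    rw [← mul_assoc w c x, ← hcc w]
    group
  rw [e]
  apply le_antisymm
  · rw [Subgroup.zpowers_le]
    exact mem_zp_c hc2 hcc hw.symm
  · rw [Subgroup.zpowers_le]
    exact mem_zp_c hc2 hcc hw

/-- If the function does not split the formula does not follow from the known facts. -/
theorem sharp (hc2 : c * c = 1) (hcc : ∀ g : G, c * g = g * c) {H : Subgroup G} {ψ : G ⧸ H}
    {Φ : Finset (G ⧸ H)} (h : ¬ Split (a0 H ψ Φ)) :
    ∃ D : Sides G, IsKnown D c ∧ D.ht H ψ Φ ≠ D.Z (a0 H ψ Φ) := by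
  have h1 : a0 H ψ Φ ∉ splitSpace G := h
  obtain ⟨t, ht1, ht2⟩ : ∃ t : (G → ℚ) →ₗ[ℚ] ℚ, t (a0 H ψ Φ) ≠ 0 ∧
      ∀ a ∈ splitSpace G, t a = 0 := by
    obtain ⟨t, h2, h3⟩ := Submodule.exists_le_ker_of_notMem h1
    exact ⟨t, h2, fun a ha => h3 ha⟩
  let T : (G → ℚ) →ₗ[ℚ] ℝ := (Algebra.linearMap ℚ ℝ).comp t
  have hT : ∀ a, Split a → T a = 0 := by
    intro a ha
    change algebraMap ℚ ℝ (t a) = 0
    rw [ht2 a ha, map_zero]
  refine ⟨⟨fun H ψ Φ => T (a0 H ψ Φ), 0⟩, ⟨⟨T, fun _ _ _ _ => rfl⟩, ?_, ?_, ?_⟩, ?_⟩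
  · intro H ψ Φ hΦ
    change T (a0 H ψ Φ) + T (a0 H (c • ψ) Φ) = 0
    rw [← map_add, a0_c hcc hΦ]
    exact hT _ ⟨1, 0, by simp, fun _ _ _ => rfl, fun _ _ _ => rfl⟩
  · intro H ψ Φ hΦ hH
    change T (a0 H ψ Φ) = 0
    refine hT _ ⟨a0 H ψ Φ, 0, by simp, ?_, fun _ _ _ => rfl⟩
    intro x y hxy
    have h4 : ∀ η : G, (η⁻¹ * x * η) • ψ = (η⁻¹ * y * η) • ψ := by
      intro η
      induction ψ using QuotientGroup.induction_on with
      | H z =>
        rw [MulAction.Quotient.smul_coe, MulAction.Quotient.smul_coe, QuotientGroup.eq]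
        apply hH
        have h5 : Abelianization.of x = Abelianization.of y := hxy
        have h6 : Abelianization.of ((η⁻¹ * x * η) • z) = Abelianization.of ((η⁻¹ * y * η) • z) := by
          rw [smul_eq_mul, smul_eq_mul, map_mul, map_mul, map_mul, map_mul, map_mul, map_mul, h5]
        exact QuotientGroup.eq.1 h6
    rw [a0_eq, a0_eq]
    congr 3
    exact Finset.sum_congr rfl fun η _ => by rw [h4 η]
  · intro H
    change ∑ Φ ∈ cmTypes c H, ∑ ψ ∈ Φ, T (a0 H ψ Φ) = ∑ Φ ∈ cmTypes c H, ∑ ψ ∈ Φ, 0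
    rw [Finset.sum_eq_zero (fun Φ _ => Finset.sum_const_zero)]
    by_cases hcH : c ∈ H
    · have : cmTypes c H = ∅ := by
        unfold cmTypes
        rw [Finset.filter_eq_empty_iff]
        intro Φ _ hΦ
        have h5 := hΦ ((1 : G) : G ⧸ H)
        have h6 : c • ((1 : G) : G ⧸ H) = ((1 : G) : G ⧸ H) := by
          rw [MulAction.Quotient.smul_coe, smul_eq_mul, mul_one, eq_comm, QuotientGroup.eq,
            inv_one, one_mul]
          exact hcH
        rw [h6] at h5
        by_cases h7 : ((1 : G) : G ⧸ H) ∈ Φ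
        · exact h5.1 h7 h7
        · exact h7 (h5.2 h7)
      rw [this, Finset.sum_empty]
    · have h5 : ∑ Φ ∈ cmTypes c H, ∑ ψ ∈ Φ, T (a0 H ψ Φ) =
          T (∑ Φ ∈ cmTypes c H, ∑ ψ ∈ Φ, a0 H ψ Φ) := by
        rw [map_sum]
        exact Finset.sum_congr rfl fun Φ _ => (map_sum _ _ _).symm
      rw [h5, sum_a0 hc2 hcc hcH, map_add, map_smul, map_smul,
        hT 1 ⟨1, 0, by simp, fun _ _ _ => rfl, fun _ _ _ => rfl⟩, hT (od c (fx H)) ?_, smul_zero,
        smul_zero, add_zero]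
      refine ⟨0, od c (fx H), by simp, fun _ _ _ => rfl, fun x y hxy => ?_⟩
      rw [od_apply, od_apply, fx_dv H hxy, fx_dv H (hxy.mul_c hc2 hcc)]
  · change T (a0 H ψ Φ) ≠ 0
    change algebraMap ℚ ℝ (t (a0 H ψ Φ)) ≠ 0
    intro h5
    exact ht1 ((map_eq_zero (algebraMap ℚ ℝ)).1 h5)

end sharp

section aff

/-- The affine maps `z ↦ u z + a` of the field `F`. -/
@[ext]
structure Aff (F : Type u) [Field F] where
  /-- the translation part -/
  a : F
  /-- the linear part -/
  u : Fˣ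

variable {F : Type u} [Field F]

instance : Mul (Aff F) := ⟨fun x y => ⟨x.a + x.u * y.a, x.u * y.u⟩⟩
instance : One (Aff F) := ⟨⟨0, 1⟩⟩
instance : Inv (Aff F) := ⟨fun x => ⟨-((x.u⁻¹ : Fˣ) * x.a), x.u⁻¹⟩⟩

lemma mul_a (x y : Aff F) : (x * y).a = x.a + x.u * y.a := rfl
lemma mul_u (x y : Aff F) : (x * y).u = x.u * y.u := rfl
lemma one_a : (1 : Aff F).a = 0 := rfl
lemma one_u : (1 : Aff F).u = 1 := rfl
lemma inv_a (x : Aff F) : (x⁻¹).a = -((x.u⁻¹ : Fˣ) * x.a) := rfl
lemma inv_u (x : Aff F) : (x⁻¹).u = x.u⁻¹ := rfl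

instance : Group (Aff F) := Group.ofLeftAxioms
  (fun x y z => by
    ext
    · simp only [mul_a, mul_u, Units.val_mul]
      ring
    · simp only [mul_u, mul_assoc])
  (fun x => by
    ext
    · simp only [mul_a, one_a, one_u, Units.val_one, one_mul, zero_add]
    · simp only [mul_u, one_u, one_mul])
  (fun x => by
    ext
    · simp only [mul_a, inv_a, inv_u, one_a]
      ring
    · simp only [mul_u, inv_u, one_u, inv_mul_cancel])

instance [Fintype F] : Fintype (Aff F) :=
  Fintype.ofEquiv (F × Fˣ) ⟨fun p => ⟨p.1, p.2⟩, fun x => (x.a, x.u), fun _ => rfl, fun _ => rfl⟩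

/-- The linear part. -/
def lin : Aff F →* Fˣ where
  toFun x := x.u
  map_one' := rfl
  map_mul' _ _ := rfl

/-- The product of the group with two elements and the affine group. -/
abbrev Gp (F : Type u) [Field F] : Type u := Multiplicative (ZMod 2) × Aff F

/-- The nontrivial element of the group with two elements. -/
def cc (F : Type u) [Field F] : Gp F := (Multiplicative.ofAdd 1, 1)

lemma cc_sq : cc F * cc F = 1 := by
  exact Prod.ext (show (Multiplicative.ofAdd (1 : ZMod 2)) * Multiplicative.ofAdd 1 = 1 by decide)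
    (mul_one _)

lemma cc_comm (g : Gp F) : cc F * g = g * cc F := by
  unfold cc
  rw [Prod.ext_iff]
  refine ⟨mul_comm _ _, ?_⟩
  simp

lemma eq_of_zp : ∀ s s' : Multiplicative (ZMod 2), Subgroup.zpowers s = Subgroup.zpowers s' →
    s = s' := by
  intro s s' h
  have h0 : ∀ t : Multiplicative (ZMod 2), t = 1 ∨ t = Multiplicative.ofAdd 1 := by decide
  rcases h0 s with h1 | h1 <;> rcases h0 s' with h2 | h2
  · rw [h1, h2]
  · rw [h1, Subgroup.zpowers_one_eq_bot, eq_comm, Subgroup.zpowers_eq_bot] at h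
    rw [h1, h]
  · rw [h2, Subgroup.zpowers_one_eq_bot, Subgroup.zpowers_eq_bot] at h
    rw [h2, h]
  · rw [h1, h2]

lemma comm_le {t : Gp F} (ht : t ∈ commutator (Gp F)) : t.1 = 1 ∧ t.2.u = 1 := by
  let f : Gp F →* Multiplicative (ZMod 2) × Fˣ :=
    { toFun := fun t => (t.1, t.2.u), map_one' := rfl, map_mul' := fun _ _ => rfl }
  have h := Abelianization.commutator_subset_ker f ht
  rw [MonoidHom.mem_ker] at h
  exact ⟨congrArg Prod.fst h, congrArg Prod.snd h⟩

lemma full_of {x : Gp F} (hx : x.2.u ≠ 1) : Full x := by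
  intro t ht
  obtain ⟨h1, h2⟩ := comm_le ht
  have hne : (1 : F) - x.2.u ≠ 0 := by
    rw [sub_ne_zero]
    intro h
    exact hx (Units.ext h.symm)
  refine isConj_iff.2 ⟨(1, ⟨x.2.u * t.2.a / (1 - x.2.u), 1⟩), ?_⟩
  ext
  · change 1 * x.1 * 1⁻¹ = x.1 * t.1
    rw [h1, one_mul, inv_one]
  · simp only [Prod.snd_mul, Prod.snd_inv, mul_a, inv_a, mul_u, Units.val_one, one_mul, inv_one]
    field_simp
    ring
  · simp only [Prod.snd_mul, Prod.snd_inv, mul_u, inv_u, h2, one_mul, inv_one, mul_one]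

/-- The product of the group with two elements and the affine group satisfies the condition. -/
theorem good_aff : Good (cc F) := by
  intro x y h
  have h1 : x.1 = y.1 := by
    apply eq_of_zp
    have := congrArg (Subgroup.map (MonoidHom.fst _ _)) h
    rwa [MonoidHom.map_zpowers, MonoidHom.map_zpowers] at this
  have h2 : Subgroup.zpowers x.2 = Subgroup.zpowers y.2 := by
    have := congrArg (Subgroup.map (MonoidHom.snd _ _)) h
    rwa [MonoidHom.map_zpowers, MonoidHom.map_zpowers] at this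
  have h3 : Subgroup.zpowers x.2.u = Subgroup.zpowers y.2.u := by
    have := congrArg (Subgroup.map lin) h2
    rwa [MonoidHom.map_zpowers, MonoidHom.map_zpowers] at this
  by_cases hx : x.2.u = 1
  · have hy : y.2.u = 1 := by
      rw [hx, Subgroup.zpowers_one_eq_bot, eq_comm, Subgroup.zpowers_eq_bot] at h3
      exact h3
    left
    by_cases hxa : x.2.a = 0
    · have hx1 : x.2 = 1 := by
        ext
        · exact hxa
        · rw [hx]; rfl
      have hy1 : y.2 = 1 := by
        rw [hx1, Subgroup.zpowers_one_eq_bot, eq_comm, Subgroup.zpowers_eq_bot] at h2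
        exact h2
      have : x = y := Prod.ext h1 (by rw [hx1, hy1])
      rw [this]
      exact IsConj.refl y
    · have hya : y.2.a ≠ 0 := by
        intro hya
        have hy1 : y.2 = 1 := by
          ext
          · exact hya
          · rw [hy]; rfl
        rw [hy1, Subgroup.zpowers_one_eq_bot, Subgroup.zpowers_eq_bot] at h2
        apply hxa
        rw [h2]
        rfl
      refine isConj_iff.2 ⟨(1, ⟨0, Units.mk0 (y.2.a / x.2.a) (div_ne_zero hya hxa)⟩), ?_⟩
      ext
      · change 1 * x.1 * 1⁻¹ = y.1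
        rw [h1, one_mul, inv_one, mul_one]
      · simp only [Prod.snd_mul, Prod.snd_inv, mul_a, inv_a, mul_u, hx, Units.val_mk0, mul_zero,
          neg_zero, mul_one, add_zero, zero_add]
        field_simp
      · simp only [Prod.snd_mul, Prod.snd_inv, mul_u, inv_u, hx, hy, mul_one, mul_inv_cancel]
  · have hy : y.2.u ≠ 1 := by
      intro hy
      rw [hy, Subgroup.zpowers_one_eq_bot, Subgroup.zpowers_eq_bot] at h3
      exact hx h3
    right
    right
    exact ⟨full_of hx, full_of hy⟩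

end aff

end

end Pool.Agent.V2450.Colmez
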