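import Mathlib

/-!
# CM types and class functions
-/

set_option autoImplicit false

open scoped Classical

namespace Pool.Agent.V2450.Colmez

universe u

noncomputable section

variable {G : Type u} [Group G] [Fintype G]

/-- The set `Φ` of embeddings of the fixed field of `H` is a CM type: the set `G / H` of all the
embeddings is the disjoint union of `Φ` and `c Φ`. -/
def IsCMType (c : G) (H : Subgroup G) (Φ : Finset (G ⧸ H)) : Prop :=
  ∀ ψ : G ⧸ H, c • ψ ∈ Φ ↔ ψ ∉ Φ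

/-- The class function `a⁰ (g) = #{η : η⁻¹ g η ψ ∈ Φ} / #G`. -/
def a0 (H : Subgroup G) (ψ : G ⧸ H) (Φ : Finset (G ⧸ H)) (g : G) : ℚ :=
  ((Finset.univ.filter fun η : G => (η⁻¹ * g * η) • ψ ∈ Φ).card : ℚ) / Fintype.card G

/-- The sign of an embedding with respect to a CM type. -/
def sg {H : Subgroup G} (Φ : Finset (G ⧸ H)) (ψ : G ⧸ H) : ℚ := if ψ ∈ Φ then 1 else -1

lemma sg_c {c : G} {H : Subgroup G} {Φ : Finset (G ⧸ H)} (h : IsCMType c H Φ) (ψ : G ⧸ H) :
    sg Φ (c • ψ) = - sg Φ ψ := by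
  unfold sg
  by_cases h1 : ψ ∈ Φ
  · have h2 : c • ψ ∉ Φ := fun h3 => (h ψ).1 h3 h1
    rw [if_pos h1, if_neg h2]
  · rw [if_neg h1, if_pos ((h ψ).2 h1)]
    norm_num

lemma a0_eq (H : Subgroup G) (ψ : G ⧸ H) (Φ : Finset (G ⧸ H)) (g : G) :
    a0 H ψ Φ g = 1 / 2 + 1 / 2 * ((∑ η : G, sg Φ ((η⁻¹ * g * η) • ψ)) / Fintype.card G) := by
  have hG : (Fintype.card G : ℚ) ≠ 0 := Nat.cast_ne_zero.2 Fintype.card_ne_zero
  have h1 : ∑ η : G, sg Φ ((η⁻¹ * g * η) • ψ) =
      2 * ((Finset.univ.filter fun η : G => (η⁻¹ * g * η) • ψ ∈ Φ).card : ℚ) -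
        Fintype.card G := by
    have h2 : ∀ η : G, sg Φ ((η⁻¹ * g * η) • ψ) =
        2 * (if (η⁻¹ * g * η) • ψ ∈ Φ then 1 else 0) - 1 := by
      intro η
      unfold sg
      split_ifs <;> norm_num
    rw [Finset.sum_congr rfl fun η _ => h2 η, Finset.sum_sub_distrib, ← Finset.mul_sum,
      Finset.sum_boole]
    simp
  rw [h1]
  unfold a0
  field_simp
  ring

/-- The part `f (g) - f (c g)` of a function. -/
def od (c : G) : (G → ℚ) →ₗ[ℚ] (G → ℚ) where
  toFun f := fun g => f g - f (c * g)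
  map_add' f f' := by ext g; simp; ring
  map_smul' a f := by ext g; simp; ring

lemma od_apply (c : G) (f : G → ℚ) (g : G) : od c f g = f g - f (c * g) := rfl

/-- The number of fixed points on `G / H`. -/
def fx (H : Subgroup G) (g : G) : ℚ := ((Finset.univ.filter fun ψ : G ⧸ H => g • ψ = ψ).card : ℚ)

lemma fx_conj (H : Subgroup G) (w g : G) : fx H (w * g * w⁻¹) = fx H g := by
  unfold fx
  congr 1
  refine Finset.card_bij (fun ψ _ => w⁻¹ • ψ) ?_ ?_ ?_
  · intro ψ hψ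
    rw [Finset.mem_filter] at hψ ⊢
    refine ⟨Finset.mem_univ _, ?_⟩
    have h1 := congrArg (fun t => w⁻¹ • t) hψ.2
    simp only [mul_smul, inv_smul_smul] at h1
    exact h1
  · intro ψ _ ψ' _ h
    exact smul_left_cancel _ h
  · intro ψ hψ
    rw [Finset.mem_filter] at hψ
    refine ⟨w • ψ, ?_, ?_⟩
    · rw [Finset.mem_filter]
      refine ⟨Finset.mem_univ _, ?_⟩
      rw [mul_smul, inv_smul_smul, mul_smul, hψ.2]
    · rw [inv_smul_smul]

/-- There is a CM type. -/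
lemma exists_cm {c : G} (hc2 : c * c = 1) (hcc : ∀ g : G, c * g = g * c) {H : Subgroup G}
    (hcH : c ∉ H) : ∃ Φ : Finset (G ⧸ H), IsCMType c H Φ := by
  obtain ⟨e⟩ : Nonempty ((G ⧸ H) ≃ Fin (Fintype.card (G ⧸ H))) := ⟨Fintype.equivFin _⟩
  have hne : ∀ ψ : G ⧸ H, c • ψ ≠ ψ := by
    intro ψ
    induction ψ using QuotientGroup.induction_on with
    | H x =>
      intro h
      rw [MulAction.Quotient.smul_coe, smul_eq_mul, hcc, eq_comm, QuotientGroup.eq] at h
      apply hcH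
      rwa [inv_mul_cancel_left] at h
  refine ⟨Finset.univ.filter fun ψ => e ψ < e (c • ψ), fun ψ => ?_⟩
  rw [Finset.mem_filter, Finset.mem_filter, ← mul_smul, hc2, one_smul]
  simp only [Finset.mem_univ, true_and, not_lt]
  constructor
  · exact fun h => h.le
  · intro h
    refine lt_of_le_of_ne h fun h1 => hne ψ (e.injective h1)

/-- The CM type in which `x` and `c x` are exchanged. -/
def flip (c : G) {H : Subgroup G} (x : G ⧸ H) (Φ : Finset (G ⧸ H)) : Finset (G ⧸ H) :=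
  Finset.univ.filter fun ψ => if ψ = x ∨ ψ = c • x then ψ ∉ Φ else ψ ∈ Φ

lemma mem_flip {c : G} {H : Subgroup G} {x ψ : G ⧸ H} {Φ : Finset (G ⧸ H)} :
    ψ ∈ flip c x Φ ↔ if ψ = x ∨ ψ = c • x then ψ ∉ Φ else ψ ∈ Φ := by
  unfold flip
  rw [Finset.mem_filter]
  simp

lemma flip_pair {c : G} (hc2 : c * c = 1) {H : Subgroup G} {x ψ : G ⧸ H} :
    (c • ψ = x ∨ c • ψ = c • x) ↔ (ψ = x ∨ ψ = c • x) := by
  constructor
  · rintro (h | h)
    · right
      rw [← h, ← mul_smul, hc2, one_smul]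
    · left
      exact smul_left_cancel _ h
  · rintro (h | h)
    · right
      rw [h]
    · left
      rw [h, ← mul_smul, hc2, one_smul]

lemma flip_cm {c : G} (hc2 : c * c = 1) {H : Subgroup G} {x : G ⧸ H} {Φ : Finset (G ⧸ H)}
    (h : IsCMType c H Φ) : IsCMType c H (flip c x Φ) := by
  intro ψ
  rw [mem_flip, mem_flip]
  have h1 := flip_pair (H := H) (x := x) (ψ := ψ) hc2
  by_cases h2 : ψ = x ∨ ψ = c • x
  · rw [if_pos h2, if_pos (h1.2 h2), h ψ]
  · rw [if_neg h2, if_neg (fun h3 => h2 (h1.1 h3)), h ψ]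

lemma flip_flip {c : G} {H : Subgroup G} {x : G ⧸ H} {Φ : Finset (G ⧸ H)} :
    flip c x (flip c x Φ) = Φ := by
  ext ψ
  rw [mem_flip, mem_flip]
  by_cases h2 : ψ = x ∨ ψ = c • x
  · rw [if_pos h2, if_pos h2, not_not]
  · rw [if_neg h2, if_neg h2]

lemma sg_flip_of {c : G} {H : Subgroup G} {x ψ : G ⧸ H} {Φ : Finset (G ⧸ H)}
    (h : ψ = x ∨ ψ = c • x) : sg (flip c x Φ) ψ = - sg Φ ψ := by
  have h2 : ψ ∈ flip c x Φ ↔ ψ ∉ Φ := mem_flip.trans (by rw [if_pos h])
  unfold sg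
  by_cases h1 : ψ ∈ Φ
  · rw [if_neg (fun h3 => h2.1 h3 h1), if_pos h1]
  · rw [if_pos (h2.2 h1), if_neg h1]
    norm_num

lemma sg_flip_of_not {c : G} {H : Subgroup G} {x ψ : G ⧸ H} {Φ : Finset (G ⧸ H)}
    (h : ¬ (ψ = x ∨ ψ = c • x)) : sg (flip c x Φ) ψ = sg Φ ψ := by
  have h2 : ψ ∈ flip c x Φ ↔ ψ ∈ Φ := mem_flip.trans (by rw [if_neg h])
  unfold sg
  by_cases h1 : ψ ∈ Φ
  · rw [if_pos (h2.2 h1), if_pos h1]
  · rw [if_neg (fun h3 => h1 (h2.1 h3)), if_neg h1]

lemma sg_sq {H : Subgroup G} (Φ : Finset (G ⧸ H)) (ψ : G ⧸ H) : sg Φ ψ * sg Φ ψ = 1 := by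
  unfold sg
  split_ifs <;> norm_num

/-- The set of the CM types. -/
def cmTypes (c : G) (H : Subgroup G) : Finset (Finset (G ⧸ H)) :=
  Finset.univ.filter (IsCMType c H)

lemma mem_cmTypes {c : G} {H : Subgroup G} {Φ : Finset (G ⧸ H)} :
    Φ ∈ cmTypes c H ↔ IsCMType c H Φ := by
  unfold cmTypes
  rw [Finset.mem_filter]
  simp

/-- The sum over the CM types of the products of two signs. -/
lemma sum_sg {c : G} (hc2 : c * c = 1) (hcc : ∀ g : G, c * g = g * c) {H : Subgroup G}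
    (hcH : c ∉ H) (ψ ψ' : G ⧸ H) :
    ∑ Φ ∈ cmTypes c H, sg Φ ψ * sg Φ ψ' =
      ((cmTypes c H).card : ℚ) * ((if ψ' = ψ then 1 else 0) - if c • ψ' = ψ then 1 else 0) := by
  have hne : ∀ ψ : G ⧸ H, c • ψ ≠ ψ := by
    intro ψ
    induction ψ using QuotientGroup.induction_on with
    | H x =>
      intro h
      rw [MulAction.Quotient.smul_coe, smul_eq_mul, hcc, eq_comm, QuotientGroup.eq] at h
      apply hcH
      rwa [inv_mul_cancel_left] at h
  by_cases h1 : ψ' = ψ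
  · subst h1
    rw [if_pos rfl, if_neg (hne ψ'), Finset.sum_congr rfl fun Φ _ => sg_sq Φ ψ']
    simp
  · rw [if_neg h1]
    by_cases h2 : c • ψ' = ψ
    · rw [if_pos h2, ← h2]
      have h3 : ∀ Φ ∈ cmTypes c H, sg Φ (c • ψ') * sg Φ ψ' = -1 := by
        intro Φ hΦ
        rw [sg_c (mem_cmTypes.1 hΦ), neg_mul, sg_sq]
      rw [Finset.sum_congr rfl h3]
      simp
    · rw [if_neg h2, sub_zero, mul_zero]
      have h4 : ¬ (ψ = ψ' ∨ ψ = c • ψ') := by
        rintro (h | h)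
        · exact h1 h.symm
        · exact h2 h.symm
      refine Finset.sum_involution (fun Φ _ => flip c ψ' Φ) ?_ ?_ ?_ ?_
      · intro Φ _
        rw [sg_flip_of (Or.inl rfl), sg_flip_of_not h4]
        ring
      · intro Φ _ _ h
        have h5 : sg (flip c ψ' Φ) ψ' = sg Φ ψ' := by rw [h]
        rw [sg_flip_of (Or.inl rfl)] at h5
        have h6 := sg_sq Φ ψ'
        have h7 : sg Φ ψ' = 0 := by linarith
        rw [h7] at h6
        norm_num at h6
      · intro Φ hΦ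
        exact mem_cmTypes.2 (flip_cm hc2 (mem_cmTypes.1 hΦ))
      · intro Φ _
        exact flip_flip

/-- The cyclic subgroups generated by `x` and `y` are conjugate. -/
def Dv (x y : G) : Prop := ∃ w : G, Subgroup.zpowers (w * x * w⁻¹) = Subgroup.zpowers y

omit [Fintype G] in
lemma zp_conj (w x : G) : Subgroup.zpowers (w * x * w⁻¹) =
    (Subgroup.zpowers x).map (MulAut.conj w).toMonoidHom := by
  rw [MonoidHom.map_zpowers]
  rfl

omit [Fintype G] in
lemma Dv.refl (x : G) : Dv x x := ⟨1, by simp⟩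

omit [Fintype G] in
lemma Dv.symm {x y : G} (h : Dv x y) : Dv y x := by
  obtain ⟨w, hw⟩ := h
  refine ⟨w⁻¹, ?_⟩
  rw [zp_conj, ← hw, ← zp_conj]
  congr 1
  group

omit [Fintype G] in
lemma Dv.trans {x y z : G} (h : Dv x y) (h' : Dv y z) : Dv x z := by
  obtain ⟨w, hw⟩ := h
  obtain ⟨v, hv⟩ := h'
  refine ⟨v * w, ?_⟩
  rw [← hv, zp_conj v y, ← hw, ← zp_conj]
  congr 1
  group

omit [Fintype G] in
lemma Dv.of_conj (w x : G) : Dv x (w * x * w⁻¹) := ⟨w, rfl⟩

lemma fx_zp (H : Subgroup G) {x y : G} (h : Subgroup.zpowers x = Subgroup.zpowers y) :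
    fx H x = fx H y := by
  have key : ∀ (x : G) (ψ : G ⧸ H), x • ψ = ψ ↔ Subgroup.zpowers x ≤ MulAction.stabilizer G ψ := by
    intro x ψ
    rw [Subgroup.zpowers_le, MulAction.mem_stabilizer_iff]
  unfold fx
  congr 2
  ext ψ
  rw [Finset.mem_filter, Finset.mem_filter, key, key, h]

lemma fx_dv (H : Subgroup G) {x y : G} (h : Dv x y) : fx H x = fx H y := by
  obtain ⟨w, hw⟩ := h
  rw [← fx_conj H w x, fx_zp H hw]

/-- The indicator function of a class of an equivalence relation. -/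
def ind (r : G → G → Prop) (x : G) : G → ℚ := fun g => if r g x then 1 else 0

lemma decomp_rel {r : G → G → Prop} (hs : ∀ x y, r x y → r y x)
    (ht : ∀ x y z, r x y → r y z → r x z) (hr : ∀ x, r x x) {f : G → ℚ}
    (hf : ∀ x y, r x y → f x = f y) :
    f = ∑ x : G, (f x / ((Finset.univ.filter fun y => r x y).card : ℚ)) • ind r x := by
  ext g
  rw [Finset.sum_apply]
  have h1 : ∀ x : G, ((f x / ((Finset.univ.filter fun y => r x y).card : ℚ)) • ind r x) g =
      if r g x then f g / ((Finset.univ.filter fun y => r g y).card : ℚ) else 0 := by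
    intro x
    rw [Pi.smul_apply, smul_eq_mul]
    unfold ind
    by_cases h : r g x
    · rw [if_pos h, if_pos h, mul_one, hf g x h]
      congr 3
      ext y
      rw [Finset.mem_filter, Finset.mem_filter]
      exact ⟨fun h' => ⟨h'.1, ht _ _ _ h h'.2⟩, fun h' => ⟨h'.1, ht _ _ _ (hs _ _ h) h'.2⟩⟩
    · rw [if_neg h, if_neg h, mul_zero]
  rw [Finset.sum_congr rfl fun x _ => h1 x, ← Finset.sum_filter, Finset.sum_const, nsmul_eq_mul]
  have h2 : ((Finset.univ.filter fun y => r g y).card : ℚ) ≠ 0 := by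
    rw [Nat.cast_ne_zero, ← Nat.pos_iff_ne_zero, Finset.card_pos]
    exact ⟨g, by rw [Finset.mem_filter]; exact ⟨Finset.mem_univ _, hr g⟩⟩
  field_simp

/-- The permutation character of a cyclic group is a combination of indicator functions. -/
lemma fx_cyclic (C : Subgroup G) : fx C = ∑ y ∈ Finset.univ.filter (fun y : G => y ∈ C),
    (fx C y / ((Finset.univ.filter fun z : G => z ∈ C ∧ Dv y z).card : ℚ)) • ind Dv y := by
  ext x
  rw [Finset.sum_apply]
  have h1 : ∀ y : G, ((fx C y / ((Finset.univ.filter fun z : G => z ∈ C ∧ Dv y z).card : ℚ)) •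
      ind Dv y) x =
      if Dv x y then fx C x / ((Finset.univ.filter fun z : G => z ∈ C ∧ Dv x z).card : ℚ)
        else 0 := by
    intro y
    rw [Pi.smul_apply, smul_eq_mul]
    unfold ind
    by_cases h : Dv x y
    · rw [if_pos h, if_pos h, mul_one, fx_dv C h]
      congr 3
      ext z
      rw [Finset.mem_filter, Finset.mem_filter]
      exact ⟨fun h' => ⟨h'.1, h'.2.1, h.trans h'.2.2⟩,
        fun h' => ⟨h'.1, h'.2.1, h.symm.trans h'.2.2⟩⟩
    · rw [if_neg h, if_neg h, mul_zero]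
  rw [Finset.sum_congr rfl fun x _ => h1 x, ← Finset.sum_filter, Finset.sum_const, nsmul_eq_mul,
    Finset.filter_filter]
  by_cases h2 : ((Finset.univ.filter fun z : G => z ∈ C ∧ Dv x z).card : ℚ) = 0
  · rw [h2, zero_mul]
    rw [Nat.cast_eq_zero, Finset.card_eq_zero, Finset.filter_eq_empty_iff] at h2
    unfold fx
    rw [Nat.cast_eq_zero, Finset.card_eq_zero, Finset.filter_eq_empty_iff]
    intro ψ _
    induction ψ using QuotientGroup.induction_on with
    | H w =>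
      intro h
      rw [MulAction.Quotient.smul_coe, smul_eq_mul, eq_comm, QuotientGroup.eq] at h
      apply h2 (Finset.mem_univ (w⁻¹ * (x * w)))
      refine ⟨h, ?_⟩
      have := Dv.of_conj w⁻¹ x
      rwa [inv_inv, mul_assoc] at this
  · field_simp

end

end Pool.Agent.V2450.Colmez
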