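import Pool.Agent.V2450.Colmez.Core

/-!
# Colmez's product formula and class functions
-/

set_option autoImplicit false

open scoped Classical

namespace Pool.Agent.V2450.Colmez

universe u

noncomputable section

variable {G : Type u} [Group G] [Fintype G]

/-- The two sides of Colmez's formula for the CM fields contained in the Galois CM field `K` with
group `G`: `ht H ψ Φ = ht (E, ψ, Φ)` for the fixed field `E` of `H`, and `Z` is a linear map on the
functions on `G` such that `Z a = Z^∞ (a^*, 0)` for the class functions `a` such that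
`a (g) + a (c g)` does not depend on `g`. -/
structure Sides (G : Type u) [Group G] [Fintype G] where
  /-- the height -/
  ht : ∀ H : Subgroup G, G ⧸ H → Finset (G ⧸ H) → ℝ
  /-- the logarithmic derivative of the Artin `L`-function -/
  Z : (G → ℚ) →ₗ[ℚ] ℝ

/-- The known facts: there is a linear functional `L` with `ht (E, ψ, Φ) = L (a⁰)` (Colmez);
`ht (E, ψ, Φ) + ht (E, c ψ, Φ) = log (2 π) = Z^∞ (1, 0)`; Colmez's formula is true if `E` is abelian
over `ℚ` (Colmez, Obus); and it is true on average over the CM types `Φ` of `E` and the embeddings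
`ψ ∈ Φ` (Andreatta, Goren, Howard, Madapusi Pera; Yuan, Zhang). -/
structure IsKnown (D : Sides G) (c : G) : Prop where
  linear : ∃ L : (G → ℚ) →ₗ[ℚ] ℝ, ∀ (H : Subgroup G) (ψ : G ⧸ H) (Φ : Finset (G ⧸ H)),
    IsCMType c H Φ → D.ht H ψ Φ = L (a0 H ψ Φ)
  pair : ∀ (H : Subgroup G) (ψ : G ⧸ H) (Φ : Finset (G ⧸ H)), IsCMType c H Φ →
    D.ht H ψ Φ + D.ht H (c • ψ) Φ = D.Z 1
  abelian : ∀ (H : Subgroup G) (ψ : G ⧸ H) (Φ : Finset (G ⧸ H)), IsCMType c H Φ →
    commutator G ≤ H → D.ht H ψ Φ = D.Z (a0 H ψ Φ)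
  average : ∀ H : Subgroup G, ∑ Φ ∈ cmTypes c H, ∑ ψ ∈ Φ, D.ht H ψ Φ =
    ∑ Φ ∈ cmTypes c H, ∑ ψ ∈ Φ, D.Z (a0 H ψ Φ)

variable {c : G}

lemma smul_comm' (hcc : ∀ g : G, c * g = g * c) {H : Subgroup G} (g : G) (ψ : G ⧸ H) :
    g • c • ψ = c • g • ψ := by
  rw [← mul_smul, ← mul_smul, hcc]

lemma a0_mul_c (hcc : ∀ g : G, c * g = g * c) {H : Subgroup G} {Φ : Finset (G ⧸ H)}
    (hΦ : IsCMType c H Φ) (ψ : G ⧸ H) (g : G) : a0 H ψ Φ (c * g) = 1 - a0 H ψ Φ g := by
  rw [a0_eq, a0_eq]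
  have h1 : ∀ η : G, sg Φ ((η⁻¹ * (c * g) * η) • ψ) = - sg Φ ((η⁻¹ * g * η) • ψ) := by
    intro η
    rw [← sg_c hΦ, ← mul_smul]
    congr 2
    rw [← mul_assoc, ← hcc η⁻¹]
    group
  rw [Finset.sum_congr rfl fun η _ => h1 η, Finset.sum_neg_distrib]
  ring

lemma a0_c (hcc : ∀ g : G, c * g = g * c) {H : Subgroup G} {Φ : Finset (G ⧸ H)}
    (hΦ : IsCMType c H Φ) (ψ : G ⧸ H) : a0 H ψ Φ + a0 H (c • ψ) Φ = 1 := by
  ext g
  rw [Pi.add_apply, Pi.one_apply, a0_eq, a0_eq]
  have h1 : ∀ η : G, sg Φ ((η⁻¹ * g * η) • c • ψ) = - sg Φ ((η⁻¹ * g * η) • ψ) := by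
    intro η
    rw [smul_comm' hcc, sg_c hΦ]
  rw [Finset.sum_congr rfl fun η _ => h1 η, Finset.sum_neg_distrib]
  ring

lemma a0_od (hcc : ∀ g : G, c * g = g * c) {H : Subgroup G} {Φ : Finset (G ⧸ H)}
    (hΦ : IsCMType c H Φ) (ψ : G ⧸ H) :
    a0 H ψ Φ = (1 / 2 : ℚ) • (1 : G → ℚ) + (1 / 2 : ℚ) • od c (a0 H ψ Φ) := by
  ext g
  rw [Pi.add_apply, Pi.smul_apply, Pi.smul_apply, Pi.one_apply, od_apply, a0_mul_c hcc hΦ]
  simp only [smul_eq_mul]
  ring

lemma half {H : Subgroup G} (hc2 : c * c = 1) (hcc : ∀ g : G, c * g = g * c)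
    {Φ : Finset (G ⧸ H)} (hΦ : IsCMType c H Φ) (h : G) :
    ∑ ψ ∈ Φ, sg Φ (h • ψ) = 1 / 2 * ∑ ψ : G ⧸ H, sg Φ ψ * sg Φ (h • ψ) := by
  have h1 : ∑ ψ : G ⧸ H, sg Φ ψ * sg Φ (h • ψ) =
      ∑ ψ ∈ Φ, sg Φ ψ * sg Φ (h • ψ) + ∑ ψ ∈ Φᶜ, sg Φ ψ * sg Φ (h • ψ) :=
    (Finset.sum_add_sum_compl Φ _).symm
  have h2 : ∑ ψ ∈ Φ, sg Φ ψ * sg Φ (h • ψ) = ∑ ψ ∈ Φ, sg Φ (h • ψ) := by
    refine Finset.sum_congr rfl fun ψ hψ => ?_
    have : sg Φ ψ = 1 := by unfold sg; rw [if_pos hψ]
    rw [this, one_mul]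
  have h3 : ∑ ψ ∈ Φᶜ, sg Φ ψ * sg Φ (h • ψ) = ∑ ψ ∈ Φ, sg Φ (h • ψ) := by
    refine Finset.sum_bij (fun ψ _ => c • ψ) ?_ ?_ ?_ ?_
    · intro ψ hψ
      rw [Finset.mem_compl] at hψ
      exact (hΦ ψ).2 hψ
    · intro ψ _ ψ' _ h
      exact smul_left_cancel _ h
    · intro ψ hψ
      refine ⟨c • ψ, ?_, ?_⟩
      · rw [Finset.mem_compl]
        exact fun h' => (hΦ ψ).1 h' hψ
      · rw [← mul_smul, hc2, one_smul]
    · intro ψ hψ
      rw [Finset.mem_compl] at hψ
      have : sg Φ ψ = -1 := by unfold sg; rw [if_neg hψ]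
      rw [this, smul_comm' hcc, sg_c hΦ]
      ring
  rw [h1, h2, h3]
  ring

lemma sum_a0_one {H : Subgroup G} (hc2 : c * c = 1) (hcc : ∀ g : G, c * g = g * c)
    {Φ : Finset (G ⧸ H)} (hΦ : IsCMType c H Φ) (g : G) :
    ∑ ψ ∈ Φ, a0 H ψ Φ g = 1 / 2 * (Φ.card : ℚ) + 1 / 4 * ((∑ η : G, ∑ ψ : G ⧸ H,
        sg Φ ψ * sg Φ ((η⁻¹ * g * η) • ψ)) / Fintype.card G) := by
  have h1 : ∑ ψ ∈ Φ, ∑ η : G, sg Φ ((η⁻¹ * g * η) • ψ) =
      1 / 2 * ∑ η : G, ∑ ψ : G ⧸ H, sg Φ ψ * sg Φ ((η⁻¹ * g * η) • ψ) := by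
    rw [Finset.sum_comm, Finset.mul_sum]
    exact Finset.sum_congr rfl fun η _ => half hc2 hcc hΦ (η⁻¹ * g * η)
  have h2 : ∑ ψ ∈ Φ, a0 H ψ Φ g = ∑ ψ ∈ Φ, (1 / 2 +
      1 / 2 * ((∑ η : G, sg Φ ((η⁻¹ * g * η) • ψ)) / Fintype.card G)) :=
    Finset.sum_congr rfl fun ψ _ => a0_eq H ψ Φ g
  rw [h2, Finset.sum_add_distrib, Finset.sum_const, nsmul_eq_mul, ← Finset.mul_sum,
    ← Finset.sum_div, h1]
  ring

lemma sum_sg2 {H : Subgroup G} (hc2 : c * c = 1) (hcc : ∀ g : G, c * g = g * c) (hcH : c ∉ H)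
    (h : G) : ∑ Φ ∈ cmTypes c H, ∑ ψ : G ⧸ H, sg Φ ψ * sg Φ (h • ψ) =
      ((cmTypes c H).card : ℚ) * (fx H h - fx H (c * h)) := by
  rw [Finset.sum_comm]
  have h1 : ∀ ψ : G ⧸ H, ∑ Φ ∈ cmTypes c H, sg Φ ψ * sg Φ (h • ψ) =
      ((cmTypes c H).card : ℚ) * ((if h • ψ = ψ then 1 else 0) - if (c * h) • ψ = ψ then 1 else 0) := by
    intro ψ
    rw [sum_sg hc2 hcc hcH ψ (h • ψ), mul_smul]
  rw [Finset.sum_congr rfl fun ψ _ => h1 ψ, ← Finset.mul_sum, Finset.sum_sub_distrib,
    Finset.sum_boole, Finset.sum_boole]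
  rfl

/-- The sum of the `a⁰` over the CM types and the embeddings. -/
lemma sum_a0 {H : Subgroup G} (hc2 : c * c = 1) (hcc : ∀ g : G, c * g = g * c) (hcH : c ∉ H) :
    ∑ Φ ∈ cmTypes c H, ∑ ψ ∈ Φ, a0 H ψ Φ =
      (1 / 2 * ∑ Φ ∈ cmTypes c H, (Φ.card : ℚ)) • (1 : G → ℚ) +
        (1 / 4 * ((cmTypes c H).card : ℚ)) • od c (fx H) := by
  have hG : (Fintype.card G : ℚ) ≠ 0 := Nat.cast_ne_zero.2 Fintype.card_ne_zero
  ext g
  have h1 : (∑ Φ ∈ cmTypes c H, ∑ ψ ∈ Φ, a0 H ψ Φ) g =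
      ∑ Φ ∈ cmTypes c H, (1 / 2 * (Φ.card : ℚ) + 1 / 4 * ((∑ η : G, ∑ ψ : G ⧸ H,
        sg Φ ψ * sg Φ ((η⁻¹ * g * η) • ψ)) / Fintype.card G)) := by
    rw [Finset.sum_apply]
    refine Finset.sum_congr rfl fun Φ hΦ => ?_
    rw [Finset.sum_apply]
    exact sum_a0_one hc2 hcc (mem_cmTypes.1 hΦ) g
  have h3 : ∀ η : G, ∑ Φ ∈ cmTypes c H, ∑ ψ : G ⧸ H, sg Φ ψ * sg Φ ((η⁻¹ * g * η) • ψ) =
      ((cmTypes c H).card : ℚ) * (fx H g - fx H (c * g)) := by
    intro η
    rw [sum_sg2 hc2 hcc hcH]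
    have e1 := fx_conj H η⁻¹ g
    have e2 := fx_conj H η⁻¹ (c * g)
    rw [inv_inv] at e1 e2
    have e3 : c * (η⁻¹ * g * η) = η⁻¹ * (c * g) * η := by
      rw [← mul_assoc η⁻¹ c g, ← hcc η⁻¹]
      group
    rw [e1, e3, e2]
  have h4 : ∑ Φ ∈ cmTypes c H, ∑ η : G, ∑ ψ : G ⧸ H, sg Φ ψ * sg Φ ((η⁻¹ * g * η) • ψ) =
      Fintype.card G * (((cmTypes c H).card : ℚ) * (fx H g - fx H (c * g))) := by
    rw [Finset.sum_comm, Finset.sum_congr rfl fun η _ => h3 η, Finset.sum_const, nsmul_eq_mul,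
      Finset.card_univ]
  rw [h1, Finset.sum_add_distrib, ← Finset.mul_sum, ← Finset.mul_sum, ← Finset.sum_div, h4,
    mul_div_cancel_left₀ _ hG]
  change _ = (1 / 2 * ∑ Φ ∈ cmTypes c H, (Φ.card : ℚ)) * 1 +
    (1 / 4 * ((cmTypes c H).card : ℚ)) * (fx H g - fx H (c * g))
  ring

section

variable {T : (G → ℚ) →ₗ[ℚ] ℝ}

lemma T_fx {H : Subgroup G} (hc2 : c * c = 1) (hcc : ∀ g : G, c * g = g * c) (h1 : T 1 = 0)
    (hav : ∀ H : Subgroup G, ∑ Φ ∈ cmTypes c H, ∑ ψ ∈ Φ, T (a0 H ψ Φ) = 0) :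
    T (od c (fx H)) = 0 := by
  by_cases hcH : c ∈ H
  · have : od c (fx H) = 0 := by
      ext g
      rw [od_apply, Pi.zero_apply, sub_eq_zero]
      unfold fx
      congr 2
      ext ψ
      rw [Finset.mem_filter, Finset.mem_filter]
      have h2 : c • g • ψ = g • ψ := by
        have key : ∀ ψ : G ⧸ H, c • ψ = ψ := by
          intro ψ
          induction ψ using QuotientGroup.induction_on with
          | H x =>
            rw [MulAction.Quotient.smul_coe, smul_eq_mul, hcc, eq_comm, QuotientGroup.eq,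
              inv_mul_cancel_left]
            exact hcH
        exact key _
      rw [mul_smul, h2]
    rw [this, map_zero]
  · have h2 := hav H
    have h3 : T (∑ Φ ∈ cmTypes c H, ∑ ψ ∈ Φ, a0 H ψ Φ) = 0 := by
      rw [map_sum, ← h2]
      exact Finset.sum_congr rfl fun Φ _ => map_sum _ _ _
    rw [sum_a0 hc2 hcc hcH, map_add, map_smul, map_smul, h1, smul_zero, zero_add,
      smul_eq_zero] at h3
    rcases h3 with h3 | h3
    · exfalso
      obtain ⟨Φ, hΦ⟩ := exists_cm hc2 hcc hcH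
      have h4 : 0 < (cmTypes c H).card := Finset.card_pos.2 ⟨Φ, mem_cmTypes.2 hΦ⟩
      have h5 : (0 : ℚ) < (cmTypes c H).card := Nat.cast_pos.2 h4
      linarith
    · exact h3

lemma T_dv (hc2 : c * c = 1) (hcc : ∀ g : G, c * g = g * c) (h1 : T 1 = 0)
    (hav : ∀ H : Subgroup G, ∑ Φ ∈ cmTypes c H, ∑ ψ ∈ Φ, T (a0 H ψ Φ) = 0) (n : ℕ) :
    ∀ g : G, orderOf g = n → T (od c (ind Dv g)) = 0 := by
  induction n using Nat.strong_induction_on with
  | _ n ih =>
    intro g hg
    let C := Subgroup.zpowers g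
    let w : G → ℚ := fun y =>
      fx C y / ((Finset.univ.filter fun z : G => z ∈ C ∧ Dv y z).card : ℚ)
    have hw : ∀ y, 0 ≤ w y := by
      intro y
      apply div_nonneg
      · unfold fx
        exact Nat.cast_nonneg _
      · exact Nat.cast_nonneg _
    have hT := T_fx (H := C) hc2 hcc h1 hav
    rw [fx_cyclic C, map_sum, map_sum] at hT
    have h2 : ∀ y ∈ Finset.univ.filter (fun y : G => y ∈ C), T (od c (w y • ind Dv y)) =
        (if Subgroup.zpowers y = C then w y else 0) • T (od c (ind Dv g)) := by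
      intro y hy
      rw [Finset.mem_filter] at hy
      rw [map_smul, map_smul]
      by_cases h3 : Subgroup.zpowers y = C
      · rw [if_pos h3]
        congr 3
        ext x
        unfold ind
        have h4 : Dv x y ↔ Dv x g := by
          unfold Dv
          rw [h3]
        by_cases h5 : Dv x y
        · rw [if_pos h5, if_pos (h4.1 h5)]
        · rw [if_neg h5, if_neg (fun h6 => h5 (h4.2 h6))]
      · rw [if_neg h3, zero_smul]
        have h4 : Subgroup.zpowers y < C :=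
          lt_of_le_of_ne (by rw [Subgroup.zpowers_le]; exact hy.2) h3
        have h5 : orderOf y < n := by
          rw [← hg, ← Nat.card_zpowers, ← Nat.card_zpowers]
          exact Set.ncard_lt_ncard h4 (Set.toFinite _)
        rw [ih _ h5 y rfl, smul_zero]
    rw [Finset.sum_congr rfl h2, ← Finset.sum_smul, smul_eq_zero] at hT
    rcases hT with hT | hT
    · exfalso
      have h3 : (0 : ℚ) < w g := by
        apply div_pos
        · unfold fx
          rw [Nat.cast_pos, Finset.card_pos]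
          refine ⟨((1 : G) : G ⧸ C), ?_⟩
          rw [Finset.mem_filter]
          refine ⟨Finset.mem_univ _, ?_⟩
          rw [MulAction.Quotient.smul_coe, smul_eq_mul, mul_one, eq_comm, QuotientGroup.eq,
            inv_one, one_mul]
          exact Subgroup.mem_zpowers g
        · rw [Nat.cast_pos, Finset.card_pos]
          refine ⟨g, ?_⟩
          rw [Finset.mem_filter]
          exact ⟨Finset.mem_univ _, Subgroup.mem_zpowers g, Dv.refl g⟩
      have h4 : w g ≤ ∑ y ∈ Finset.univ.filter (fun y : G => y ∈ C),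
          (if Subgroup.zpowers y = C then w y else 0) := by
        have h5 : w g = if Subgroup.zpowers g = C then w g else 0 := by rw [if_pos rfl]
        rw [h5]
        refine Finset.single_le_sum (f := fun y => if Subgroup.zpowers y = C then w y else 0)
          (fun y _ => ?_) ?_
        · split_ifs
          · exact hw y
          · exact le_rfl
        · rw [Finset.mem_filter]
          exact ⟨Finset.mem_univ _, Subgroup.mem_zpowers g⟩
      linarith
    · exact hT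

/-- The relation of having the same image in the abelianization. -/
def Cs (x y : G) : Prop := (x : G ⧸ commutator G) = (y : G ⧸ commutator G)

lemma T_cs (hc2 : c * c = 1) (hcc : ∀ g : G, c * g = g * c)
    (hab : ∀ (ψ : G ⧸ commutator G) (Φ : Finset (G ⧸ commutator G)),
      IsCMType c (commutator G) Φ → T (a0 (commutator G) ψ Φ) = 0) (x : G) :
    T (od c (ind Cs x)) = 0 := by
  by_cases hcN : c ∈ commutator G
  · have : od c (ind Cs x) = 0 := by
      ext g
      rw [od_apply, Pi.zero_apply, sub_eq_zero]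
      unfold ind Cs
      have h2 : ((c * g : G) : G ⧸ commutator G) = (g : G ⧸ commutator G) := by
        rw [hcc, eq_comm, QuotientGroup.eq, inv_mul_cancel_left]
        exact hcN
      rw [h2]
    rw [this, map_zero]
  · obtain ⟨Φ, hΦ⟩ := exists_cm hc2 hcc hcN
    have hval : ∀ (Φ : Finset (G ⧸ commutator G)) (g : G),
        a0 (commutator G) ((1 : G) : G ⧸ commutator G) Φ g =
          if (g : G ⧸ commutator G) ∈ Φ then 1 else 0 := by
      intro Φ g
      have h3 : ∀ η : G, (η⁻¹ * g * η) • ((1 : G) : G ⧸ commutator G) =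
          (g : G ⧸ commutator G) := by
        intro η
        rw [MulAction.Quotient.smul_coe, smul_eq_mul, mul_one]
        have h5 : Abelianization.of (η⁻¹ * g * η) = Abelianization.of g := by
          rw [map_mul, map_mul, map_inv, mul_comm, mul_inv_cancel_left]
        exact h5
      unfold a0
      by_cases h4 : (g : G ⧸ commutator G) ∈ Φ
      · rw [if_pos h4, Finset.filter_true_of_mem (fun η _ => by rw [h3 η]; exact h4),
          Finset.card_univ, div_self (Nat.cast_ne_zero.2 Fintype.card_ne_zero)]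
      · rw [if_neg h4, Finset.filter_false_of_mem (fun η _ => by rw [h3 η]; exact h4),
          Finset.card_empty, Nat.cast_zero, zero_div]
    have hne : c • (x : G ⧸ commutator G) ≠ (x : G ⧸ commutator G) := by
      intro h
      rw [MulAction.Quotient.smul_coe, smul_eq_mul, hcc, eq_comm, QuotientGroup.eq,
        inv_mul_cancel_left] at h
      exact hcN h
    have hcg : ∀ g : G, ((c * g : G) : G ⧸ commutator G) = c • (g : G ⧸ commutator G) :=
      fun g => rfl
    have key : ∀ g : G, ind Cs x g - ind Cs x (c * g) =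
        (if (x : G ⧸ commutator G) ∈ Φ then (1 : ℚ) else -1) *
          (a0 (commutator G) ((1 : G) : G ⧸ commutator G) Φ g -
            a0 (commutator G) ((1 : G) : G ⧸ commutator G)
              (flip c (x : G ⧸ commutator G) Φ) g) := by
      intro g
      rw [hval, hval]
      unfold ind Cs
      rw [hcg]
      by_cases h1 : (g : G ⧸ commutator G) = (x : G ⧸ commutator G)
      · rw [if_pos h1, h1, if_neg hne]
        have h2 : (x : G ⧸ commutator G) ∈ flip c (x : G ⧸ commutator G) Φ ↔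
            (x : G ⧸ commutator G) ∉ Φ := mem_flip.trans (by rw [if_pos (Or.inl rfl)])
        by_cases h3 : (x : G ⧸ commutator G) ∈ Φ
        · rw [if_pos h3, if_pos h3, if_neg (fun h4 => h2.1 h4 h3)]
          norm_num
        · rw [if_neg h3, if_neg h3, if_pos (h2.2 h3)]
          norm_num
      · rw [if_neg h1]
        by_cases h5 : c • (g : G ⧸ commutator G) = (x : G ⧸ commutator G)
        · have h6 : (g : G ⧸ commutator G) = c • (x : G ⧸ commutator G) := by
            rw [← h5, ← mul_smul, hc2, one_smul]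
          have h2 : (g : G ⧸ commutator G) ∈ flip c (x : G ⧸ commutator G) Φ ↔
              (g : G ⧸ commutator G) ∉ Φ := mem_flip.trans (by rw [if_pos (Or.inr h6)])
          have h7 : (g : G ⧸ commutator G) ∈ Φ ↔ (x : G ⧸ commutator G) ∉ Φ := by
            rw [h6]
            exact hΦ _
          rw [if_pos h5]
          by_cases h3 : (x : G ⧸ commutator G) ∈ Φ
          · have h8 : (g : G ⧸ commutator G) ∉ Φ := fun h9 => h7.1 h9 h3
            rw [if_pos h3, if_neg h8, if_pos (h2.2 h8)]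
            norm_num
          · have h8 : (g : G ⧸ commutator G) ∈ Φ := h7.2 h3
            rw [if_neg h3, if_pos h8, if_neg (fun h4 => h2.1 h4 h8)]
            norm_num
        · rw [if_neg h5]
          have h6 : ¬ ((g : G ⧸ commutator G) = (x : G ⧸ commutator G) ∨
              (g : G ⧸ commutator G) = c • (x : G ⧸ commutator G)) := by
            rintro (h | h)
            · exact h1 h
            · apply h5
              rw [h, ← mul_smul, hc2, one_smul]
          have h2 : (g : G ⧸ commutator G) ∈ flip c (x : G ⧸ commutator G) Φ ↔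
              (g : G ⧸ commutator G) ∈ Φ := mem_flip.trans (by rw [if_neg h6])
          by_cases h8 : (g : G ⧸ commutator G) ∈ Φ
          · rw [if_pos h8, if_pos (h2.2 h8)]
            norm_num
          · rw [if_neg h8, if_neg (fun h4 => h8 (h2.1 h4))]
            norm_num
    have h10 : od c (ind Cs x) = (if (x : G ⧸ commutator G) ∈ Φ then (1 : ℚ) else -1) •
        (a0 (commutator G) ((1 : G) : G ⧸ commutator G) Φ -
          a0 (commutator G) ((1 : G) : G ⧸ commutator G) (flip c (x : G ⧸ commutator G) Φ)) := by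
      ext g
      exact key g
    rw [h10, map_smul, map_sub, hab _ _ hΦ, hab _ _ (flip_cm hc2 hΦ), sub_zero, smul_zero]

end

/-- The functional which measures the failure of the formula. -/
lemma exists_T {D : Sides G} (hD : IsKnown D c) (hcc : ∀ g : G, c * g = g * c) {H : Subgroup G}
    {ψ : G ⧸ H} {Φ : Finset (G ⧸ H)} (hΦ : IsCMType c H Φ) :
    ∃ T : (G → ℚ) →ₗ[ℚ] ℝ, T 1 = 0 ∧
      (∀ (H : Subgroup G) (ψ : G ⧸ H) (Φ : Finset (G ⧸ H)), IsCMType c H Φ →
        D.ht H ψ Φ = T (a0 H ψ Φ) + D.Z (a0 H ψ Φ)) ∧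
      (∀ H : Subgroup G, ∑ Φ ∈ cmTypes c H, ∑ ψ ∈ Φ, T (a0 H ψ Φ) = 0) ∧
      (∀ (ψ : G ⧸ commutator G) (Φ : Finset (G ⧸ commutator G)),
        IsCMType c (commutator G) Φ → T (a0 (commutator G) ψ Φ) = 0) := by
  obtain ⟨L, hL⟩ := hD.linear
  refine ⟨L - D.Z, ?_, ?_, ?_, ?_⟩
  · have h1 := hD.pair H ψ Φ hΦ
    rw [hL H ψ Φ hΦ, hL H (c • ψ) Φ hΦ, ← map_add, a0_c hcc hΦ] at h1
    rw [LinearMap.sub_apply, h1, sub_self]
  · intro H ψ Φ hΦ
    rw [LinearMap.sub_apply, sub_add_cancel, hL H ψ Φ hΦ]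
  · intro H
    have h1 := hD.average H
    rw [← sub_eq_zero, ← Finset.sum_sub_distrib] at h1
    rw [← h1]
    refine Finset.sum_congr rfl fun Φ hΦ => ?_
    rw [← Finset.sum_sub_distrib]
    refine Finset.sum_congr rfl fun ψ _ => ?_
    rw [LinearMap.sub_apply, hL H ψ Φ (mem_cmTypes.1 hΦ)]
  · intro ψ Φ hΦ
    rw [LinearMap.sub_apply, ← hL _ ψ Φ hΦ, hD.abelian _ ψ Φ hΦ le_rfl, sub_self]

/-- The formula is true if the class function is the sum of a function on the abelianization and a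
function which depends only on the conjugacy class of the cyclic subgroup generated by the
element. -/
theorem formula_of_split {D : Sides G} (hD : IsKnown D c) (hc2 : c * c = 1)
    (hcc : ∀ g : G, c * g = g * c) {H : Subgroup G} {ψ : G ⧸ H} {Φ : Finset (G ⧸ H)}
    (hΦ : IsCMType c H Φ) {f1 f2 : G → ℚ} (hf : a0 H ψ Φ = f1 + f2)
    (h1 : ∀ x y, Cs x y → f1 x = f1 y) (h2 : ∀ x y, Dv x y → f2 x = f2 y) :
    D.ht H ψ Φ = D.Z (a0 H ψ Φ) := by
  obtain ⟨T, hT1, hT, hav, hab⟩ := exists_T hD hcc (ψ := ψ) hΦ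
  have h3 : T (od c f1) = 0 := by
    rw [decomp_rel (r := Cs) (fun x y h => Eq.symm h) (fun x y z h h' => Eq.trans h h')
      (fun x => rfl) h1, map_sum, map_sum]
    refine Finset.sum_eq_zero fun x _ => ?_
    rw [map_smul, map_smul, T_cs hc2 hcc hab, smul_zero]
  have h4 : T (od c f2) = 0 := by
    rw [decomp_rel (r := Dv) (fun x y h => Dv.symm h) (fun x y z h h' => Dv.trans h h')
      Dv.refl h2, map_sum, map_sum]
    refine Finset.sum_eq_zero fun x _ => ?_
    rw [map_smul, map_smul, T_dv hc2 hcc hT1 hav _ x rfl, smul_zero]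
  have h5 : T (a0 H ψ Φ) = 0 := by
    rw [a0_od hcc hΦ, map_add, map_smul, map_smul, hT1, smul_zero, zero_add, hf, map_add, map_add,
      h3, h4, add_zero, smul_zero]
  rw [hT H ψ Φ hΦ, h5, zero_add]

lemma a0_conj (H : Subgroup G) (ψ : G ⧸ H) (Φ : Finset (G ⧸ H)) (w g : G) :
    a0 H ψ Φ (w * g * w⁻¹) = a0 H ψ Φ g := by
  rw [a0_eq, a0_eq]
  congr 3
  refine Fintype.sum_equiv (Equiv.mulLeft w⁻¹) _ _ fun η => ?_
  congr 2
  rw [Equiv.coe_mulLeft]
  group

lemma a0_isConj (H : Subgroup G) (ψ : G ⧸ H) (Φ : Finset (G ⧸ H)) {x y : G} (h : IsConj x y) :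
    a0 H ψ Φ x = a0 H ψ Φ y := by
  obtain ⟨w, hw⟩ := isConj_iff.1 h
  rw [← hw, a0_conj]

/-- The conjugacy class of `x` is a coset of the commutator subgroup. -/
def Full (x : G) : Prop := ∀ t ∈ commutator G, IsConj x (x * t)

omit [Fintype G] in
lemma Full.mul {x : G} (h : Full x) {t : G} (ht : t ∈ commutator G) : Full (x * t) := by
  intro s hs
  have h1 := h t ht
  have h2 := h (t * s) ((commutator G).mul_mem ht hs)
  rw [mul_assoc]
  exact h1.symm.trans h2

omit [Fintype G] in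
lemma Full.conj {x : G} (h : Full x) (w : G) : Full (w * x * w⁻¹) := by
  intro t ht
  have h1 : w⁻¹ * t * w ∈ commutator G := by
    have := (inferInstance : (commutator G).Normal).conj_mem t ht w⁻¹
    rwa [inv_inv] at this
  have h2 := h _ h1
  have h3 : IsConj x (w * x * w⁻¹) := isConj_iff.2 ⟨w, rfl⟩
  have h4 : IsConj (x * (w⁻¹ * t * w)) (w * x * w⁻¹ * t) := by
    refine isConj_iff.2 ⟨w, ?_⟩
    group
  exact h3.symm.trans (h2.trans h4)

omit [Fintype G] in
lemma Full.isConj {x y : G} (h : IsConj x y) : Full x ↔ Full y := by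
  constructor
  · intro hx
    obtain ⟨w, hw⟩ := isConj_iff.1 h
    rw [← hw]
    exact hx.conj w
  · intro hy
    obtain ⟨w, hw⟩ := isConj_iff.1 h.symm
    rw [← hw]
    exact hy.conj w

/-- The condition on the group: if `x` and `y` generate the same subgroup then they are conjugate, or
`x` is conjugate to `c x` and `y` to `c y`, or the conjugacy classes of `x` and `y` are cosets of the
commutator subgroup. -/
def Good (c : G) : Prop := ∀ x y : G, Subgroup.zpowers x = Subgroup.zpowers y →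
  IsConj x y ∨ (IsConj x (c * x) ∧ IsConj y (c * y)) ∨ (Full x ∧ Full y)

theorem formula_of_good {D : Sides G} (hD : IsKnown D c) (hc2 : c * c = 1)
    (hcc : ∀ g : G, c * g = g * c) (hG : Good c) {H : Subgroup G} {ψ : G ⧸ H}
    {Φ : Finset (G ⧸ H)} (hΦ : IsCMType c H Φ) : D.ht H ψ Φ = D.Z (a0 H ψ Φ) := by
  let f1 : G → ℚ := fun x => if Full x then a0 H ψ Φ x - 1 / 2 else 0
  let f2 : G → ℚ := fun x => if Full x then 1 / 2 else a0 H ψ Φ x
  refine formula_of_split hD hc2 hcc hΦ (f1 := f1) (f2 := f2) ?_ ?_ ?_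
  · ext x
    change a0 H ψ Φ x = (if Full x then a0 H ψ Φ x - 1 / 2 else 0) +
      if Full x then 1 / 2 else a0 H ψ Φ x
    split_ifs
    · ring
    · ring
  · intro x y hxy
    have ht : x⁻¹ * y ∈ commutator G := QuotientGroup.eq.1 hxy
    have hy : y = x * (x⁻¹ * y) := by group
    have hiff : Full x ↔ Full y := by
      constructor
      · intro h
        rw [hy]
        exact h.mul ht
      · intro h
        have h1 : x = y * (x⁻¹ * y)⁻¹ := by group
        rw [h1]
        exact h.mul ((commutator G).inv_mem ht)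
    change (if Full x then a0 H ψ Φ x - 1 / 2 else 0) = if Full y then a0 H ψ Φ y - 1 / 2 else 0
    by_cases h : Full x
    · rw [if_pos h, if_pos (hiff.1 h)]
      have h1 : IsConj x y := by
        have := h _ ht
        rwa [← hy] at this
      rw [a0_isConj H ψ Φ h1]
    · rw [if_neg h, if_neg (fun h' => h (hiff.2 h'))]
  · have hconj : ∀ x y, IsConj x y → f2 x = f2 y := by
      intro x y h
      change (if Full x then 1 / 2 else a0 H ψ Φ x) = if Full y then 1 / 2 else a0 H ψ Φ y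
      have h1 := Full.isConj h
      by_cases h2 : Full x
      · rw [if_pos h2, if_pos (h1.1 h2)]
      · rw [if_neg h2, if_neg (fun h' => h2 (h1.2 h')), a0_isConj H ψ Φ h]
    have hhalf : ∀ x, IsConj x (c * x) → a0 H ψ Φ x = 1 / 2 := by
      intro x h
      have h1 := a0_isConj H ψ Φ h
      rw [a0_mul_c hcc hΦ] at h1
      linarith
    rintro x y ⟨w, hw⟩
    rw [hconj x (w * x * w⁻¹) (isConj_iff.2 ⟨w, rfl⟩)]
    rcases hG _ _ hw with h | ⟨h, h'⟩ | ⟨h, h'⟩
    · exact hconj _ _ h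
    · change (if Full (w * x * w⁻¹) then 1 / 2 else a0 H ψ Φ (w * x * w⁻¹)) =
        if Full y then 1 / 2 else a0 H ψ Φ y
      rw [hhalf _ h, hhalf _ h']
      split_ifs <;> rfl
    · change (if Full (w * x * w⁻¹) then 1 / 2 else a0 H ψ Φ (w * x * w⁻¹)) =
        if Full y then 1 / 2 else a0 H ψ Φ y
      rw [if_pos h, if_pos h']

end

end Pool.Agent.V2450.Colmez
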